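import Mathlib
import Pool.Agent.H2BC.Final

set_option autoImplicit false

open Filter Topology

/-!
# MP_48c1a1_co, Q1: the biclique partition number of `G(n, 1/2)`

`H2BC.bc G` (in `Pool/Agent/H2BC/Final.lean`) is the least `r` such that the edge set of `G` is the
disjoint union of the edge sets of `r` bicliques: `H2BC.BicliquePartition G r A B` says that
`A i`, `B i` (`i < r`) are nonempty disjoint vertex sets, every vertex of `A i` is adjacent to every
vertex of `B i`, and each edge of `G` belongs to exactly one of the `r` bicliques.

`G.indepNum` is Mathlib's independence number.  The uniform measure on the graphs on `Fin n` is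
`G(n, 1/2)`; probabilities are written as quotients of cardinalities.
-/

namespace Pool.Agent.Results.MP_48c1a1_co.LowerBound

/-- There is a constant `C` such that `bc(G) ≥ n - C α(G)` with high probability for
`G = G(n, 1/2)`. -/
theorem result : ∃ C : ℝ, 0 < C ∧
    Tendsto (fun n : ℕ => (Nat.card {G : SimpleGraph (Fin n) //
        (n : ℝ) - C * G.indepNum ≤ H2BC.bc G} : ℝ) / (Nat.card (SimpleGraph (Fin n)) : ℝ))
      atTop (𝓝 1) :=
  H2BC.main

end Pool.Agent.Results.MP_48c1a1_co.LowerBound
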